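import Pool.Agent.Lib.MP_e1f7e2_al.FA.H57.Trans

set_option autoImplicit false

/-!
Project FA: the statements for `FreeAlgebra K (Fin 3)`.
-/

namespace Pool.Agent.Lib.MP_e1f7e2_al.FA.H57

open Pool.Agent.Lib.MP_e1f7e2_al FreeAlgebra

section

variable (K : Type*) [Field K]

/-- the isomorphism of the free algebra with the monoid algebra of the free monoid -/
noncomputable def eqv : FreeAlgebra K (Fin 3) ≃ₐ[K] A K 3 :=
  FreeAlgebra.equivMonoidAlgebraFreeMonoid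

theorem eqv_ι (i : Fin 3) : eqv K (ι K i) = xx i := by
  simp [eqv, xx, FreeAlgebra.equivMonoidAlgebraFreeMonoid]

/-- two endomorphisms with the same values on the generators agree -/
theorem hom_ext3 {B : Type*} [Ring B] [Algebra K B] (f g : FreeAlgebra K (Fin 3) →ₐ[K] B)
    (h0 : f (ι K 0) = g (ι K 0)) (h1 : f (ι K 1) = g (ι K 1)) (h2 : f (ι K 2) = g (ι K 2)) :
    f = g := by
  refine FreeAlgebra.hom_ext (funext fun i => ?_)
  fin_cases i
  · exact h0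
  · exact h1
  · exact h2

/-- an automorphism given by a homomorphism and its inverse on generators -/
theorem exists_aut (F G : Fin 3 → FreeAlgebra K (Fin 3))
    (h1 : ∀ i, lift K F (G i) = ι K i) (h2 : ∀ i, lift K G (F i) = ι K i) :
    ∃ φ : FreeAlgebra K (Fin 3) ≃ₐ[K] FreeAlgebra K (Fin 3), ∀ i, φ (ι K i) = F i := by
  refine ⟨AlgEquiv.ofAlgHom (lift K F) (lift K G) ?_ ?_, fun i => ?_⟩
  · refine FreeAlgebra.hom_ext (funext fun i => ?_)
    simpa using h1 i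
  · refine FreeAlgebra.hom_ext (funext fun i => ?_)
    simpa using h2 i
  · simp

/-- the elementary automorphism `x₀ ↦ x₀ + g` -/
theorem exists_elementary (g : FreeAlgebra K (Fin 3))
    (hg : g ∈ Algebra.adjoin K ({ι K 1, ι K 2} : Set (FreeAlgebra K (Fin 3)))) :
    ∃ φ : FreeAlgebra K (Fin 3) ≃ₐ[K] FreeAlgebra K (Fin 3),
      φ (ι K 0) = ι K 0 + g ∧ φ (ι K 1) = ι K 1 ∧ φ (ι K 2) = ι K 2 ∧
      IsElementary (ι K) φ := by
  have fix : ∀ f : FreeAlgebra K (Fin 3) →ₐ[K] FreeAlgebra K (Fin 3), f (ι K 1) = ι K 1 →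
      f (ι K 2) = ι K 2 → f g = g := by
    intro f h1 h2
    induction hg using Algebra.adjoin_induction with
    | mem x hx =>
      rcases hx with rfl | hx
      · exact h1
      · rw [Set.mem_singleton_iff] at hx
        rw [hx]
        exact h2
    | algebraMap r => simp
    | add x y _ _ hx hy => rw [map_add, hx, hy]
    | mul x y _ _ hx hy => rw [map_mul, hx, hy]
  have fp : lift K ![ι K 0 + g, ι K 1, ι K 2] g = g := fix _ (by simp) (by simp)
  have fm : lift K ![ι K 0 - g, ι K 1, ι K 2] g = g := fix _ (by simp) (by simp)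
  obtain ⟨φ, hφ⟩ := exists_aut K ![ι K 0 + g, ι K 1, ι K 2] ![ι K 0 - g, ι K 1, ι K 2]
    (by
      intro i
      fin_cases i
      · simp [map_sub, fp]
      · simp
      · simp)
    (by
      intro i
      fin_cases i
      · simp [map_add, fm]
      · simp
      · simp)
  have e0 : φ (ι K 0) = ι K 0 + g := by simpa using hφ 0
  have e1 : φ (ι K 1) = ι K 1 := by simpa using hφ 1
  have e2 : φ (ι K 2) = ι K 2 := by simpa using hφ 2
  refine ⟨φ, e0, e1, e2, 0, 1, g, one_ne_zero, ?_, by rw [one_smul]; exact e0, ?_⟩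
  · refine Algebra.adjoin_mono ?_ hg
    rintro x (rfl | hx)
    · exact ⟨1, by simp, rfl⟩
    · rw [Set.mem_singleton_iff] at hx
      exact ⟨2, by simp, hx.symm⟩
  · intro j hj
    fin_cases j
    · exact absurd rfl hj
    · exact e1
    · exact e2

/-- Anick's automorphism -/
theorem exists_anick :
    ∃ φ : FreeAlgebra K (Fin 3) ≃ₐ[K] FreeAlgebra K (Fin 3),
      φ (ι K 0) = ι K 0 + ι K 2 * (ι K 0 * ι K 2 - ι K 2 * ι K 1) ∧
      φ (ι K 1) = ι K 1 + (ι K 0 * ι K 2 - ι K 2 * ι K 1) * ι K 2 ∧ φ (ι K 2) = ι K 2 := by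
  obtain ⟨φ, hφ⟩ := exists_aut K
    ![ι K 0 + ι K 2 * (ι K 0 * ι K 2 - ι K 2 * ι K 1),
      ι K 1 + (ι K 0 * ι K 2 - ι K 2 * ι K 1) * ι K 2, ι K 2]
    ![ι K 0 - ι K 2 * (ι K 0 * ι K 2 - ι K 2 * ι K 1),
      ι K 1 - (ι K 0 * ι K 2 - ι K 2 * ι K 1) * ι K 2, ι K 2]
    (by
      intro i
      fin_cases i
      · simp
        noncomm_ring
      · simp
        noncomm_ring
      · simp)
    (by
      intro i
      fin_cases i
      · simp
        noncomm_ring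
      · simp
        noncomm_ring
      · simp)
  exact ⟨φ, by simpa using hφ 0, by simpa using hφ 1, by simpa using hφ 2⟩

/-- Theorem B for the free algebra -/
theorem final (hE : EightStatement K) (ψ : FreeAlgebra K (Fin 3) ≃ₐ[K] FreeAlgebra K (Fin 3))
    (hψ : ψ ∉ TAut K (ι K)) :
    ∃ f ∈ Algebra.adjoin K ({ι K 1, ι K 2} : Set (FreeAlgebra K (Fin 3))), ∃ N₀ : ℕ, ∀ N ≥ N₀,
      ∃ φ : FreeAlgebra K (Fin 3) ≃ₐ[K] FreeAlgebra K (Fin 3),
        φ (ι K 0) = ι K 0 + f ^ N ∧ φ (ι K 1) = ι K 1 ∧ φ (ι K 2) = ι K 2 ∧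
        φ ∈ TAut K (ι K) ∧ ψ⁻¹ * φ * ψ ∉ TAut K (ι K) := by
  have hT := transport (eqv K) (ι K) (xx : Fin 3 → A K 3) (eqv_ι K)
  obtain ⟨f, hf, N₀, h⟩ := hE (AlgEquiv.autCongr (eqv K) ψ) (fun hc => hψ ((hT ψ).2 hc))
  have es : ∀ i, (eqv K).symm (xx i) = ι K i := fun i => by rw [← eqv_ι K i]; simp
  have hf' : (eqv K).symm f ∈ Algebra.adjoin K ({ι K 1, ι K 2} : Set (FreeAlgebra K (Fin 3))) := by
    have h3 : (eqv K).symm f ∈ (Algebra.adjoin K ({xx 1, xx 2} : Set (A K 3))).map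
        (eqv K).symm.toAlgHom := ⟨f, hf, rfl⟩
    rw [AlgHom.map_adjoin, Set.image_pair] at h3
    have e1 : (eqv K).symm.toAlgHom (xx 1) = ι K 1 := es 1
    have e2 : (eqv K).symm.toAlgHom (xx 2) = ι K 2 := es 2
    rwa [e1, e2] at h3
  refine ⟨(eqv K).symm f, hf', N₀, fun N hN => ?_⟩
  obtain ⟨φ, h0, h1, h2, hel⟩ := exists_elementary K ((eqv K).symm f ^ N) (pow_mem hf' N)
  have ea : ∀ i, AlgEquiv.autCongr (eqv K) φ (xx i) = eqv K (φ (ι K i)) := by
    intro i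
    rw [← es i]
    simp
  refine ⟨φ, h0, h1, h2, hel.mem, fun hc => ?_⟩
  refine h N hN (AlgEquiv.autCongr (eqv K) φ) ?_ ?_ ?_ ?_
  · rw [ea, h0, map_add, map_pow, eqv_ι]
    simp
  · rw [ea, h1, eqv_ι]
  · rw [ea, h2, eqv_ι]
  · have h4 := (hT _).1 hc
    rw [map_mul, map_mul, map_inv] at h4
    exact h4

/-- Anick's automorphism is wild -/
theorem final_anick (hA : AnickStatement K) :
    ∃ φ : FreeAlgebra K (Fin 3) ≃ₐ[K] FreeAlgebra K (Fin 3),
      φ (ι K 0) = ι K 0 + ι K 2 * (ι K 0 * ι K 2 - ι K 2 * ι K 1) ∧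
      φ (ι K 1) = ι K 1 + (ι K 0 * ι K 2 - ι K 2 * ι K 1) * ι K 2 ∧ φ (ι K 2) = ι K 2 ∧
      φ ∉ TAut K (ι K) := by
  obtain ⟨φ, h0, h1, h2⟩ := exists_anick K
  refine ⟨φ, h0, h1, h2, fun hc => ?_⟩
  have hT := (transport (eqv K) (ι K) (xx : Fin 3 → A K 3) (eqv_ι K) φ).1 hc
  have es : ∀ i, (eqv K).symm (xx i) = ι K i := fun i => by rw [← eqv_ι K i]; simp
  have ea : ∀ i, AlgEquiv.autCongr (eqv K) φ (xx i) = eqv K (φ (ι K i)) := by
    intro i
    rw [← es i]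
    simp
  refine hA (AlgEquiv.autCongr (eqv K) φ) ?_ ?_ ?_ hT
  · rw [ea, h0]
    simp only [map_add, map_mul, map_sub, eqv_ι]
  · rw [ea, h1]
    simp only [map_add, map_mul, map_sub, eqv_ι]
  · rw [ea, h2, eqv_ι]

end

end Pool.Agent.Lib.MP_e1f7e2_al.FA.H57
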