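import Pool.Agent.Lib.MP_e1f7e2_al.FA.H57.Asm2
import Pool.Agent.Lib.MP_e1f7e2_al.FA.H57.Fin
import Pool.Agent.Lib.MP_e1f7e2_al.FA.H12.Noneb

set_option autoImplicit false

/-!
Project FA: final assembly.
-/

namespace Pool.Agent.Lib.MP_e1f7e2_al.FA.H57

/-- Theorem B for the monoid algebra of the free monoid -/
theorem eight (K : Type*) [Field K] : EightStatement K := by
  obtain ⟨w, hw, -, -⟩ := H65.genw
  have F : Facts K w := facts K w hw
  exact eight_of K w hw
    (cml_of K w hw (H12.noneb K w hw F.d (H47.top K w hw) F.c F.e))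

end Pool.Agent.Lib.MP_e1f7e2_al.FA.H57
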