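import Pool.Agent.Lib.MP_e1f7e2_al.FA.Iface
import Pool.Agent.Lib.MP_e1f7e2_al.FA.H10.Span
import Pool.Agent.Lib.MP_e1f7e2_al.FA.H91.Frame
import Pool.Agent.Lib.MP_e1f7e2_al.FA.H81.Base3
import Pool.Agent.Lib.MP_e1f7e2_al.FA.H47.Deg
import Pool.Agent.Lib.MP_e1f7e2_al.FA.H47.Degb
import Pool.Agent.Lib.MP_e1f7e2_al.FA.H47.Top
import Pool.Agent.Lib.MP_e1f7e2_al.FA.H74.Chain
import Pool.Agent.Lib.MP_e1f7e2_al.FA.H79.Rho
import Pool.Agent.Lib.MP_e1f7e2_al.FA.H79.Norm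
import Pool.Agent.Lib.MP_e1f7e2_al.FA.H12.Beta
import Pool.Agent.Lib.MP_e1f7e2_al.FA.H12.Spec
import Pool.Agent.Lib.MP_e1f7e2_al.FA.H12.Topb
import Pool.Agent.Lib.MP_e1f7e2_al.FA.H94.Trace
import Pool.Agent.Lib.MP_e1f7e2_al.FA.H44.Comw
import Pool.Agent.Lib.MP_e1f7e2_al.FA.H44.Free
import Pool.Agent.Lib.MP_e1f7e2_al.FA.H58.Ecore
import Pool.Agent.Lib.MP_e1f7e2_al.FA.H74.Efin
import Pool.Agent.Lib.MP_e1f7e2_al.FA.H10.Div
import Pool.Agent.Lib.MP_e1f7e2_al.FA.H41.Orth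
import Pool.Agent.Lib.MP_e1f7e2_al.FA.H41.Mem
import Pool.Agent.Lib.MP_e1f7e2_al.FA.H41.Xe
import Pool.Agent.Lib.MP_e1f7e2_al.FA.H41.Wone
import Pool.Agent.Lib.MP_e1f7e2_al.FA.H78.Xa
import Pool.Agent.Lib.MP_e1f7e2_al.FA.H54.Orb
import Pool.Agent.Lib.MP_e1f7e2_al.FA.H39.Vd
import Pool.Agent.Lib.MP_e1f7e2_al.FA.H39.Str
import Pool.Agent.Lib.MP_e1f7e2_al.FA.H1.Lemn
import Pool.Agent.Lib.MP_e1f7e2_al.FA.H19.Cpred
import Pool.Agent.Lib.MP_e1f7e2_al.FA.H72.Lemcp
import Pool.Agent.Lib.MP_e1f7e2_al.FA.H27.Lemc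
import Pool.Agent.Lib.MP_e1f7e2_al.FA.H1.Lembi
import Pool.Agent.Lib.MP_e1f7e2_al.FA.H1.Lembii
import Pool.Agent.Lib.MP_e1f7e2_al.FA.H27.Lemb
import Pool.Agent.Lib.MP_e1f7e2_al.FA.H27.Lemall
import Pool.Agent.Lib.MP_e1f7e2_al.FA.H27.Fives
import Pool.Agent.Lib.MP_e1f7e2_al.FA.H78.Fivef
import Pool.Agent.Lib.MP_e1f7e2_al.FA.H78.Fiveo
import Pool.Agent.Lib.MP_e1f7e2_al.FA.H27.Five
import Pool.Agent.Lib.MP_e1f7e2_al.FA.H52.Sixa
import Pool.Agent.Lib.MP_e1f7e2_al.FA.H54.Sixb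
import Pool.Agent.Lib.MP_e1f7e2_al.FA.H52.Sixc
import Pool.Agent.Lib.MP_e1f7e2_al.FA.H65.SixD
import Pool.Agent.Lib.MP_e1f7e2_al.FA.H52.Sixe
import Pool.Agent.Lib.MP_e1f7e2_al.FA.H52.Sixf
import Pool.Agent.Lib.MP_e1f7e2_al.FA.H52.Sixg
import Pool.Agent.Lib.MP_e1f7e2_al.FA.H52.Sixi
import Pool.Agent.Lib.MP_e1f7e2_al.FA.H35.Sixs
import Pool.Agent.Lib.MP_e1f7e2_al.FA.H78.Main

set_option autoImplicit false

/-!
Project FA: assembly of sections 1 - 6.
-/

namespace Pool.Agent.Lib.MP_e1f7e2_al.FA.H57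

theorem efacts (K : Type*) [Field K] (w : Fin 3 → ℝ) (hw : Gen w) : EFacts K w := by
  have hd : DegFacts K w := H47.deg K w hw
  have hb : DegbFacts K w := H47.degb K w hw
  have ht : TopFacts K w := H47.top K w hw
  have hc : ChainFacts K 3 := H74.chain K 3
  have hr : ∀ (N : ℕ) [NeZero N], RhoFacts K w N := fun N _ => H79.rho K w hw N
  have hn : NormStatement K w := H79.norm K w hw
  have hbt : ∀ (N : ℕ) [NeZero N], BetaFacts K w N := fun N _ => H12.beta K w hw N (hr N) hn hc hd hb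
  exact H74.efin K w hd hb (H44.comw K w hw hd ht)
    (H58.ecore K w hd hb (H74.chain K 2) hc ht hr hn hbt (H12.topb K w hw hr hn hbt hc hd hb ht)
      (H12.spec K w hw hbt hr hn hc hd hb ht) (H94.trace K w hw hd ht))

theorem facts (K : Type*) [Field K] (w : Fin 3 → ℝ) (hw : Gen w) : Facts K w := by
  have hd : DegFacts K w := H47.deg K w hw
  have hb : DegbFacts K w := H47.degb K w hw
  have ht : TopFacts K w := H47.top K w hw
  have hc : ChainFacts K 3 := H74.chain K 3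
  have he : EFacts K w := efacts K w hw
  have hs : SpanFacts K := H10.span K
  have hcw : ComwFacts K w := H44.comw K w hw hd ht
  have hO : OrStatement K w := H41.or K w hw hd hb
  have hmem : MemFacts K w := H41.mem K w hw hd hb (fun n => H74.chain K n) he
  have hxe : XeFacts K w := H41.xe K w hw hd hb (fun n => H74.chain K n) hO hmem he
  have hwo : WoneFacts K w := H41.wone K w hw hd hb (fun n => H74.chain K n) hO hxe hmem he hcw
  have hor : OrFacts K w := H54.orb K w hw hd hs hcw he hwo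
  have hfr : FrFacts K w := H91.frame K w hw hs hd hc
  have hfree : FreeFacts K w := H44.free K w hw hd ht hc he
  exact ⟨hd, hcw, he,
    { hmem,
      H78.xa K w hw hd hb hc (H10.div K w hw hd hb ht) ht he, hfree, hxe, hwo with },
    hs, hfr, hor, H39.VD.vd K w hd hs hfr hor, H81.base K w hw hd hcw hc hfree hfr⟩

theorem main (K : Type*) [Field K] (w : Fin 3 → ℝ) (hw : Gen w) : MainStatement K w := by
  have F : Facts K w := facts K w hw
  have hstr : StrStatement K w := H39.str K w F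
  have hcp : CpredStatement K w := H19.cpred K w F hstr
  have hall : LemallStatement K w := H27.lemall K w hw F (H1.lemn K w F) (H72.lemcp K w hw F hcp)
    (H27.lemc K w hw F) (H27.lemb K w hw F hstr (H1.lembi K w F) (H1.lembii K w F))
  have hfn : FivenStatement K w := H78.fiven K w hw F
  have hfive : FiveStatement K w := H27.five K w hw F (H27.fives K w hw F) (H78.fivef K w hw F)
    hfn (H78.fiveo K w hw F) (H78.fivet K w hw F hfn)
  have ha : SixaStatement K w := H52.sixa K w hw F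
  have hb : SixbStatement K w := H54.sixb K w hw F ha
  have hc : SixcStatement K w := H52.sixc K w hw F ha
  have he : SixeStatement K w := H52.sixe K w hw F ha hc
  exact H78.main K w hw F hall hfive
    (H52.sixi K w hw F ha hb hc (H65.sixd K w hw F) he)
    (H52.sixf K w hw F) (H52.sixg K w hw F ha) (H35.sixs K w hw F)

end Pool.Agent.Lib.MP_e1f7e2_al.FA.H57
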