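import Pool.Agent.Lib.MP_e1f7e2_al.FA.Iface2
import Pool.Agent.Lib.MP_e1f7e2_al.FA.H57.Asm1
import Pool.Agent.Lib.MP_e1f7e2_al.FA.H15.Cml
import Pool.Agent.Lib.MP_e1f7e2_al.FA.H15.Cnt
import Pool.Agent.Lib.MP_e1f7e2_al.FA.H22.Pbn
import Pool.Agent.Lib.MP_e1f7e2_al.FA.H22.Wfac
import Pool.Agent.Lib.MP_e1f7e2_al.FA.H30.Lw
import Pool.Agent.Lib.MP_e1f7e2_al.FA.H30.Wl
import Pool.Agent.Lib.MP_e1f7e2_al.FA.H65.Dtz
import Pool.Agent.Lib.MP_e1f7e2_al.FA.H65.Redi
import Pool.Agent.Lib.MP_e1f7e2_al.FA.H65.Tame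
import Pool.Agent.Lib.MP_e1f7e2_al.FA.H7.Fint
import Pool.Agent.Lib.MP_e1f7e2_al.FA.H78.Pbe
import Pool.Agent.Lib.MP_e1f7e2_al.FA.H94.Wp
import Pool.Agent.Lib.MP_e1f7e2_al.FA.H97.Pba
import Pool.Agent.Lib.MP_e1f7e2_al.FA.H41.Casea
import Pool.Agent.Lib.MP_e1f7e2_al.FA.H70.Eight
import Pool.Agent.Lib.MP_e1f7e2_al.FA.H91.Finh
import Pool.Agent.Lib.MP_e1f7e2_al.FA.H19.Bd
import Pool.Agent.Lib.MP_e1f7e2_al.FA.H36.Anick
import Pool.Agent.Lib.MP_e1f7e2_al.FA.H78.Pball
import Pool.Agent.Lib.MP_e1f7e2_al.FA.H12.Nonea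
import Pool.Agent.Lib.MP_e1f7e2_al.FA.H81.Pbb

set_option autoImplicit false

/-!
Project FA: assembly of sections 7 and 8.
-/

namespace Pool.Agent.Lib.MP_e1f7e2_al.FA.H57

theorem cml_of (K : Type*) [Field K] (w : Fin 3 → ℝ) (hw : Gen w) (hB : NonebStatement K w) :
    CmlStatement K := by
  have F : Facts K w := facts K w hw
  have hA : NoneaStatement K w := H12.nonea K w hw F.d (H47.degb K w hw) F.e
  exact H15.cml K w hw F (H15.cmlf K w hw F)
    (H15.cmln K w hw F (H15.none K w hA hB F.e) (H74.chain K 3))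

theorem eight_of (K : Type*) [Field K] (w : Fin 3 → ℝ) (hw : Gen w) (hcml : CmlStatement K) :
    EightStatement K := by
  have F : Facts K w := facts K w hw
  have hM : MainStatement K w := main K w hw
  have hb : DegbFacts K w := H47.degb K w hw
  have hO : OrStatement K w := H41.or K w hw F.d hb
  have hL : LwFacts K w := H30.lw K w hw F.d
  have hWL : WlStatement K w := H30.wl K w hw hL H22.wfac F.d
  have hT : TameStatement K w := H65.tame K w hw F hM
  have hR : RediStatement K w := H65.redi K w hw F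
  have hbd : BdStatement K w := H19.bd K w hw F (fun n => H74.chain K n) hb hO
  have hpbn : PbnStatement K w := H22.pbn K w hL H22.wfac hWL
  have hpba : PbaStatement K w := H97.pba K w hw hL hWL F
  have hpbc : PbcStatement K w := H78.pbc K w hw hbd hWL F.d F.c
  have hpbe : PbeStatement K w := H78.pbe K w hw hWL F.d
  have hca : CaseaStatement K := H41.casea K w hw (H65.dtz K)
    (H91.finh K w hw (H74.chain K 3) hb F.f) hcml (H7.tmov K) (H7.fint K) F.f F.s
  exact H70.eight K w hw F hM hT hR (H7.tmov K) (H65.phi K) (H94.wp K w hw hL F.e) hWL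
    (H78.pball K w hw F hpba (H81.pbb K w hw F hL hWL H22.wfac hpbn) hpbc hpbe) (H65.mini K w hw F.d) hca
    (H74.chain K 3)

theorem anick (K : Type*) [Field K] : AnickStatement K := by
  obtain ⟨w, hw, -, h10⟩ := H65.genw
  have F : Facts K w := facts K w hw
  exact _root_.Pool.Agent.Lib.MP_e1f7e2_al.FA.anick K w hw h10 F (H65.tame K w hw F (main K w hw)) (H65.redi K w hw F)

end Pool.Agent.Lib.MP_e1f7e2_al.FA.H57
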