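import Pool.Agent.Lib.MP_e1f7e2_al.FA.Iface2

set_option autoImplicit false

/-!
Project FA: transport of the tame group along an isomorphism of algebras with distinguished
generators, and Anick's automorphism of the free algebra.
-/

namespace Pool.Agent.Lib.MP_e1f7e2_al.FA.H57

open Pool.Agent.Lib.MP_e1f7e2_al

section

variable {K : Type*} [Field K] {A₁ A₂ : Type*} [Ring A₁] [Algebra K A₁] [Ring A₂] [Algebra K A₂]
  {n : ℕ}

theorem transport_aux (e : A₁ ≃ₐ[K] A₂) (x : Fin n → A₁) (y : Fin n → A₂)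
    (he : ∀ i, e (x i) = y i) (φ : A₁ ≃ₐ[K] A₁) (hφ : φ ∈ TAut K x) :
    AlgEquiv.autCongr e φ ∈ TAut K y := by
  have key : ∀ (φ : A₁ ≃ₐ[K] A₁) (i : Fin n), AlgEquiv.autCongr e φ (y i) = e (φ (x i)) := by
    intro φ i
    rw [← he i]
    simp
  refine Subgroup.closure_induction (p := fun φ _ => AlgEquiv.autCongr e φ ∈ TAut K y)
    ?_ ?_ ?_ ?_ hφ
  · rintro φ (h | h)
    · refine IsAffine.mem fun i => ?_
      rw [key]
      have h1 := Submodule.mem_map_of_mem (f := e.toLinearMap) (h i)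
      rw [Submodule.map_span] at h1
      refine Submodule.span_mono ?_ h1
      rintro _ ⟨a, ha, rfl⟩
      rcases ha with rfl | ⟨j, rfl⟩
      · left
        simp
      · right
        exact ⟨j, (he j).symm⟩
    · obtain ⟨i, α, f, hα, hf, h1, h2⟩ := h
      refine IsElementary.mem ⟨i, α, e f, hα, ?_, ?_, ?_⟩
      · have h3 : e f ∈ (Algebra.adjoin K (x '' {j | j ≠ i})).map e.toAlgHom := ⟨f, hf, rfl⟩
        rw [AlgHom.map_adjoin] at h3
        refine Algebra.adjoin_mono ?_ h3
        rintro _ ⟨_, ⟨j, hj, rfl⟩, rfl⟩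
        exact ⟨j, hj, (he j).symm⟩
      · rw [key, h1, map_add, map_smul, he]
      · intro j hj
        rw [key, h2 j hj, he]
  · rw [map_one]
    exact one_mem _
  · intro a b _ _ ha hb
    rw [map_mul]
    exact mul_mem ha hb
  · intro a _ ha
    rw [map_inv]
    exact inv_mem ha

theorem transport (e : A₁ ≃ₐ[K] A₂) (x : Fin n → A₁) (y : Fin n → A₂)
    (he : ∀ i, e (x i) = y i) (φ : A₁ ≃ₐ[K] A₁) :
    φ ∈ TAut K x ↔ AlgEquiv.autCongr e φ ∈ TAut K y := by
  refine ⟨transport_aux e x y he φ, fun h => ?_⟩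
  have h1 := transport_aux e.symm y x (fun i => by rw [← he i]; simp) _ h
  have h2 : AlgEquiv.autCongr e.symm (AlgEquiv.autCongr e φ) = φ := by
    ext a
    simp
  rwa [h2] at h1

end

end Pool.Agent.Lib.MP_e1f7e2_al.FA.H57
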